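import Pool.Agent.TH38.BQ3.Swan
import Pool.Agent.TH38.BQ3.Lin
import Pool.Agent.TH38.BQ3.Rank
import Pool.Agent.TH38.BQ3.Cmv
import Pool.Agent.TH38.BQ3.Loc
import Pool.Agent.TH38.BQ3.Patch
import Pool.Agent.TH38.BQ3.Main

/-!
# Bass-Quillen for small idempotent matrices
-/

set_option autoImplicit false

namespace Pool.Agent.Results.MP_d97d24_ag.SmallIdempotents

open TensorProduct Pool.Agent.TH38.BQ3

/-- Let `R` be a commutative ring in which `2` is invertible and whose localisations at maximal
ideals are factorial domains (for instance a regular ring).  Let `E` be an idempotent matrix of size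
three over `R[T_1,...,T_m]` whose entries have degree at most `3` in every variable.  Then the
projective module given by the image of `E` is extended from `R`. -/
theorem result (R : Type) [CommRing R] (h2 : IsUnit (2 : R))
    (hR : ∀ (q : Ideal R) [q.IsMaximal], ∃ _ : IsDomain (Localization.AtPrime q),
      UniqueFactorizationMonoid (Localization.AtPrime q))
    (m : ℕ) (E : Matrix (Fin 3) (Fin 3) (MvPolynomial (Fin m) R)) (hE : E * E = E)
    (hdeg : ∀ i j k, (E i j).degreeOf k ≤ 3) :
    ∃ (Q : Type) (_ : AddCommGroup Q) (_ : Module R Q),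
      Nonempty (LinearMap.range E.mulVecLin ≃ₗ[MvPolynomial (Fin m) R]
        MvPolynomial (Fin m) R ⊗[R] Q) :=
  main (local_split rank (complmv (linear swan sqrt))) patch_one R h2 hR m E hE hdeg

end Pool.Agent.Results.MP_d97d24_ag.SmallIdempotents
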